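import Mathlib

/-!
# Rotations in a coordinate plane, orthogonal matrices acting on vector valued matrices
(REG, part B, helper39)
-/

set_option autoImplicit false

namespace Pool.Agent.H39.RG

open Matrix Finset

/-- the generator of the rotations in the plane `(a, b)` -/
def Sab {m : ℕ} (a b : Fin m) : Matrix (Fin m) (Fin m) ℝ :=
  Matrix.single a b 1 - Matrix.single b a 1

theorem Sab_transpose {m : ℕ} (a b : Fin m) : (Sab a b)ᵀ = -Sab a b := by
  simp [Sab, Matrix.transpose_sub, Matrix.transpose_single]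

theorem Sab_sq {m : ℕ} {a b : Fin m} (h : a ≠ b) :
    Sab a b * Sab a b = -(Matrix.single a a 1 + Matrix.single b b 1) := by
  have h' : b ≠ a := Ne.symm h
  simp only [Sab, mul_sub, sub_mul]
  rw [Matrix.single_mul_single_of_ne (h := h'), Matrix.single_mul_single_same,
    Matrix.single_mul_single_same, Matrix.single_mul_single_of_ne (h := h)]
  simp
  abel

theorem Sab_cube {m : ℕ} {a b : Fin m} (h : a ≠ b) :
    Sab a b * Sab a b * Sab a b = -Sab a b := by
  have h' : b ≠ a := Ne.symm h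
  rw [Sab_sq h]
  simp only [Sab, mul_sub, neg_mul, add_mul]
  rw [Matrix.single_mul_single_same, Matrix.single_mul_single_of_ne (h := h'),
    Matrix.single_mul_single_of_ne (h := h), Matrix.single_mul_single_same]
  simp
  abel

/-- the rotation of angle `θ` in the plane `(a, b)` -/
noncomputable def Rot {m : ℕ} (a b : Fin m) (θ : ℝ) : Matrix (Fin m) (Fin m) ℝ :=
  1 + Real.sin θ • Sab a b + (1 - Real.cos θ) • (Sab a b * Sab a b)

/-- the derivative of the rotation -/
noncomputable def Rot' {m : ℕ} (a b : Fin m) (θ : ℝ) : Matrix (Fin m) (Fin m) ℝ :=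
  Real.cos θ • Sab a b + Real.sin θ • (Sab a b * Sab a b)

theorem Rot_apply {m : ℕ} (a b : Fin m) (θ : ℝ) (i j : Fin m) :
    Rot a b θ i j = (1 : Matrix (Fin m) (Fin m) ℝ) i j + Real.sin θ * Sab a b i j +
      (1 - Real.cos θ) * (Sab a b * Sab a b) i j := by
  simp [Rot]

theorem Rot'_apply {m : ℕ} (a b : Fin m) (θ : ℝ) (i j : Fin m) :
    Rot' a b θ i j = Real.cos θ * Sab a b i j + Real.sin θ * (Sab a b * Sab a b) i j := by
  simp [Rot']

theorem hasDerivAt_Rot {m : ℕ} (a b : Fin m) (i j : Fin m) (θ : ℝ) :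
    HasDerivAt (fun t => Rot a b t i j) (Rot' a b θ i j) θ := by
  have h1 := (Real.hasDerivAt_sin θ).mul_const (Sab a b i j)
  have h2 := ((Real.hasDerivAt_cos θ).const_sub 1).mul_const ((Sab a b * Sab a b) i j)
  have h3 := ((h1.const_add ((1 : Matrix (Fin m) (Fin m) ℝ) i j)).add h2)
  have e : (fun t => Rot a b t i j) = fun t => (1 : Matrix (Fin m) (Fin m) ℝ) i j +
      Real.sin t * Sab a b i j + (1 - Real.cos t) * (Sab a b * Sab a b) i j := by
    funext t; exact Rot_apply a b t i j
  rw [e, Rot'_apply]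
  refine HasDerivAt.congr_deriv h3 ?_
  ring

theorem contDiff_Rot {m : ℕ} (a b : Fin m) (i j : Fin m) {r : WithTop ℕ∞} :
    ContDiff ℝ r (fun t => Rot a b t i j) := by
  have e : (fun t => Rot a b t i j) = fun t => (1 : Matrix (Fin m) (Fin m) ℝ) i j +
      Real.sin t * Sab a b i j + (1 - Real.cos t) * (Sab a b * Sab a b) i j := by
    funext t; exact Rot_apply a b t i j
  rw [e]
  exact ((contDiff_const.add (Real.contDiff_sin.mul contDiff_const))).add
    ((contDiff_const.sub Real.contDiff_cos).mul contDiff_const)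

theorem Rot_transpose {m : ℕ} (a b : Fin m) (θ : ℝ) :
    (Rot a b θ)ᵀ = 1 - Real.sin θ • Sab a b + (1 - Real.cos θ) • (Sab a b * Sab a b) := by
  simp only [Rot, Matrix.transpose_add, Matrix.transpose_smul, Matrix.transpose_mul,
    Sab_transpose, Matrix.transpose_one, neg_mul_neg, smul_neg, sub_eq_add_neg]

theorem Rot_orth {m : ℕ} {a b : Fin m} (h : a ≠ b) (θ : ℝ) : (Rot a b θ)ᵀ * Rot a b θ = 1 := by
  have hc := Sab_cube h
  rw [Rot_transpose, Rot]
  set S := Sab a b with hS
  have h4 : S * S * (S * S) = -(S * S) := by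
    rw [← mul_assoc, hc, neg_mul]
  have h3 : S * (S * S) = -S := by rw [← mul_assoc, hc]
  have h3' : S * S * S = -S := hc
  simp only [add_mul, mul_add, sub_mul, mul_sub, one_mul, mul_one, smul_mul_assoc, mul_smul_comm,
    h3, h4, h3', smul_neg, smul_smul]
  have hsc := Real.sin_sq_add_cos_sq θ
  have key : ((1 - Real.cos θ) + (1 - Real.cos θ) - (1 - Real.cos θ) * (1 - Real.cos θ)
      - Real.sin θ * Real.sin θ) = 0 := by nlinarith
  calc _ = (1 : Matrix (Fin m) (Fin m) ℝ) + ((1 - Real.cos θ) + (1 - Real.cos θ)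
      - (1 - Real.cos θ) * (1 - Real.cos θ) - Real.sin θ * Real.sin θ) • (S * S) := by module
    _ = 1 := by rw [key, zero_smul, add_zero]

theorem Rot'_eq {m : ℕ} {a b : Fin m} (h : a ≠ b) (θ : ℝ) :
    Rot' a b θ = Rot a b θ * Sab a b := by
  have hc := Sab_cube h
  rw [Rot', Rot]
  set S := Sab a b with hS
  simp only [add_mul, one_mul, smul_mul_assoc, hc, smul_neg]
  module

theorem Rot_comm {m : ℕ} {a b : Fin m} (θ : ℝ) :
    Rot a b θ * Sab a b = Sab a b * Rot a b θ := by
  rw [Rot]
  simp only [add_mul, mul_add, one_mul, mul_one, smul_mul_assoc, mul_smul_comm, mul_assoc]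

/-! ### Vector valued matrices -/

/-- an orthogonal matrix acts as an isometry on vector valued columns -/
theorem sum_sq_left {m : ℕ} {V : Type*} [NormedAddCommGroup V] [InnerProductSpace ℝ V]
    (P : Fin m → Fin m → ℝ) (hP : ∀ i j, ∑ k, P k i * P k j = if i = j then 1 else 0)
    (X : Fin m → V) : ∑ i, ‖∑ k, P i k • X k‖ ^ 2 = ∑ k, ‖X k‖ ^ 2 := by
  have h1 : ∀ i, ‖∑ k, P i k • X k‖ ^ 2 = ∑ k, ∑ l, (P i k * P i l) * inner ℝ (X k) (X l) := by
    intro i
    rw [← real_inner_self_eq_norm_sq, sum_inner]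
    refine Finset.sum_congr rfl fun k _ => ?_
    rw [inner_sum]
    refine Finset.sum_congr rfl fun l _ => ?_
    rw [real_inner_smul_left, real_inner_smul_right]
    ring
  simp_rw [h1]
  rw [Finset.sum_comm]
  refine Finset.sum_congr rfl fun k _ => ?_
  rw [Finset.sum_comm]
  have h2 : ∀ l, ∑ i, (P i k * P i l) * inner ℝ (X k) (X l) =
      (if k = l then 1 else 0) * inner ℝ (X k) (X l) := by
    intro l
    rw [← Finset.sum_mul, hP]
  simp_rw [h2]
  simp [real_inner_self_eq_norm_sq]

/-- `PᵀP = 1` implies `PPᵀ = 1` -/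
theorem orth_symm {m : ℕ} (P : Fin m → Fin m → ℝ)
    (hP : ∀ i j, ∑ k, P k i * P k j = if i = j then 1 else 0) (i j : Fin m) :
    ∑ k, P i k * P j k = if i = j then 1 else 0 := by
  have h1 : (Matrix.of P)ᵀ * Matrix.of P = 1 := by
    ext i j
    simp only [Matrix.mul_apply, Matrix.transpose_apply, Matrix.of_apply, Matrix.one_apply]
    exact hP i j
  have h2 : Matrix.of P * (Matrix.of P)ᵀ = 1 := mul_eq_one_comm.mp h1
  have h3 := congrFun (congrFun h2 i) j
  simpa [Matrix.mul_apply, Matrix.one_apply] using h3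

/-- entries of an orthogonal matrix are at most one -/
theorem orth_le {m : ℕ} (P : Fin m → Fin m → ℝ)
    (hP : ∀ i j, ∑ k, P k i * P k j = if i = j then 1 else 0) (i j : Fin m) : |P i j| ≤ 1 := by
  have h := hP j j
  simp only [if_true] at h
  have h1 : P i j * P i j ≤ ∑ k, P k j * P k j :=
    Finset.single_le_sum (f := fun k => P k j * P k j) (fun k _ => mul_self_nonneg _)
      (Finset.mem_univ i)
  rw [h] at h1
  rw [← sq_le_one_iff_abs_le_one]
  nlinarith

end Pool.Agent.H39.RG
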