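import Pool.Agent.H39.RG.MIN
import Pool.Agent.H30.RG.RLX

/-!
# The minimiser in helper30's form, with no hypotheses (REG, part B, helper39)
-/

set_option autoImplicit false

namespace Pool.Agent.H39.RG

open MeasureTheory Metric Set Filter Topology Pool.Agent.H87.SN Pool.Agent.H48.RG Finset
open Pool.Agent.H30.RG (T_RLX)
open scoped ContDiff RealInnerProductSpace ENNReal

noncomputable section

variable {n m : ℕ} {Om : Fin m → Fin m → E n → E n}

/-- The minimiser, in every dimension. -/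
theorem min_all (hRLX : T_RLX) (n m : ℕ) (Om : Fin m → Fin m → E n → E n)
    (hOm : ∀ i j, MemLp (Om i j) 2 (volume.restrict (ball (0 : E n) 1))) :
    ∃ (P : Fin m → Fin m → E n → ℝ) (DP : Fin m → Fin m → E n → E n), OW P DP ∧
      ∀ (Q : Fin m → Fin m → E n → ℝ) (DQ : Fin m → Fin m → E n → E n), OW Q DQ →
        FG Om P DP ≤ FG Om Q DQ := by
  classical
  -- the infimum
  set V : Set ℝ := {r | ∃ (Q : Fin m → Fin m → E n → ℝ) (DQ : Fin m → Fin m → E n → E n),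
    OW Q DQ ∧ r = FG Om Q DQ} with hV
  have hne : V.Nonempty := ⟨_, _, _, ow_id, rfl⟩
  have hbdd : BddBelow V := ⟨0, by rintro r ⟨Q, DQ, _, rfl⟩; exact FG_nonneg Q DQ⟩
  set I₀ := sInf V with hI
  have hseq : ∀ k : ℕ, ∃ (Q : Fin m → Fin m → E n → ℝ) (DQ : Fin m → Fin m → E n → E n),
      OW Q DQ ∧ FG Om Q DQ < I₀ + 1 / ((k : ℝ) + 1) := by
    intro k
    have h1 : I₀ < I₀ + 1 / ((k : ℝ) + 1) := by
      have : (0 : ℝ) < 1 / ((k : ℝ) + 1) := by positivity
      linarith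
    obtain ⟨r, ⟨Q, DQ, hQ, rfl⟩, hr⟩ := exists_lt_of_csInf_lt hne h1
    exact ⟨Q, DQ, hQ, hr⟩
  choose P DP hP hF using hseq
  have hlow : ∀ {Q : Fin m → Fin m → E n → ℝ} {DQ : Fin m → Fin m → E n → E n}, OW Q DQ →
      I₀ ≤ FG Om Q DQ := fun {Q DQ} hQ => csInf_le hbdd ⟨Q, DQ, hQ, rfl⟩
  set B : ℝ := 2 * (I₀ + 1) + 2 * ∑ i, ∑ j, ∫ x in ball (0 : E n) 1, ‖Om i j x‖ ^ 2 with hB
  have hbd : ∀ k i j, ∫ x in ball (0 : E n) 1, ‖DP k i j x‖ ^ 2 ≤ B := by
    intro k i j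
    have h1 := DP_bound hOm (hP k) i j
    have h2 : FG Om (P k) (DP k) ≤ I₀ + 1 := by
      have h3 := (hF k).le
      have h4 : 1 / ((k : ℝ) + 1) ≤ 1 := by
        rw [div_le_one (by positivity)]
        have : (0 : ℝ) ≤ k := Nat.cast_nonneg k
        linarith
      linarith
    rw [hB]
    linarith
  obtain ⟨s, Q, DQ, hs, hQ, hae, hwk⟩ := hRLX n m B P DP hP hbd
  refine ⟨Q, DQ, hQ, fun R DR hR => ?_⟩
  refine le_trans ?_ (hlow hR)
  -- weak convergence of `GA`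
  have hGA : ∀ i j, MemLp (GA Om Q DQ i j) 2 (μB n) := memLp_GA hOm hQ
  have hGAk : ∀ k i j, MemLp (GA Om (P k) (DP k) i j) 2 (μB n) := fun k =>
    memLp_GA hOm (hP k)
  have hw : ∀ i j, Tendsto (fun k => ∫ x in ball (0 : E n) 1,
      ⟪GA Om (P (s k)) (DP (s k)) i j x, GA Om Q DQ i j x⟫) atTop
      (𝓝 (∫ x in ball (0 : E n) 1, ‖GA Om Q DQ i j x‖ ^ 2)) := by
    intro i j
    have e1 : ∀ k, ∫ x in ball (0 : E n) 1,
        ⟪GA Om (P (s k)) (DP (s k)) i j x, GA Om Q DQ i j x⟫ =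
        (∫ x in ball (0 : E n) 1, ⟪DP (s k) i j x, GA Om Q DQ i j x⟫) +
          ∑ l, ∫ x in ball (0 : E n) 1, ⟪P (s k) l j x • Om i l x, GA Om Q DQ i j x⟫ := by
      intro k
      have i1 := int_inner ((hP (s k)).wb i j).d2 (hGA i j)
      have i2 : ∀ l, Integrable (fun x => ⟪P (s k) l j x • Om i l x, GA Om Q DQ i j x⟫)
          (μB n) := fun l => int_inner (memLp_smulB ((hP (s k)).wb l j).ms
            ((orth_ae_le (hP (s k))).mono fun x hx => hx l j) (hOm i l)) (hGA i j)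
      rw [← integral_finsetSum _ fun l _ => i2 l, ← integral_add i1
        (integrable_finsetSum _ fun l _ => i2 l)]
      refine integral_congr_ae (Eventually.of_forall fun x => ?_)
      simp only [GA, inner_add_left, sum_inner]
    have e2 : ∫ x in ball (0 : E n) 1, ‖GA Om Q DQ i j x‖ ^ 2 =
        (∫ x in ball (0 : E n) 1, ⟪DQ i j x, GA Om Q DQ i j x⟫) +
          ∑ l, ∫ x in ball (0 : E n) 1, ⟪Q l j x • Om i l x, GA Om Q DQ i j x⟫ := by
      have i1 := int_inner (hQ.wb i j).d2 (hGA i j)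
      have i2 : ∀ l, Integrable (fun x => ⟪Q l j x • Om i l x, GA Om Q DQ i j x⟫)
          (μB n) := fun l => int_inner (memLp_smulB (hQ.wb l j).ms
            ((orth_ae_le hQ).mono fun x hx => hx l j) (hOm i l)) (hGA i j)
      rw [← integral_finsetSum _ fun l _ => i2 l, ← integral_add i1
        (integrable_finsetSum _ fun l _ => i2 l)]
      refine integral_congr_ae (Eventually.of_forall fun x => ?_)
      have e3 : ‖GA Om Q DQ i j x‖ ^ 2 =
          ⟪DQ i j x + ∑ l, Q l j x • Om i l x, GA Om Q DQ i j x⟫ := by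
        rw [← real_inner_self_eq_norm_sq]; rfl
      simp only [e3]
      rw [inner_add_left, sum_inner]
    simp_rw [e1]
    rw [e2]
    refine (hwk i j _ (hGA i j)).add (tendsto_finsetSum _ fun l _ => ?_)
    exact weak_mul (fun k => ((hP (s k)).wb l j).ms)
      (fun k => (orth_ae_le (hP (s k))).mono fun x hx => hx l j)
      (hae.mono fun x hx => hx l j) (hOm i l) (hGA i j)
  have hw2 : Tendsto (fun k => ∑ i, ∑ j, ∫ x in ball (0 : E n) 1,
      ⟪GA Om (P (s k)) (DP (s k)) i j x, GA Om Q DQ i j x⟫) atTop (𝓝 (FG Om Q DQ)) :=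
    tendsto_finsetSum _ fun i _ => tendsto_finsetSum _ fun j _ => hw i j
  have hle : ∀ k, ∑ i, ∑ j, ∫ x in ball (0 : E n) 1,
      ⟪GA Om (P (s k)) (DP (s k)) i j x, GA Om Q DQ i j x⟫ ≤
      (1 / 2) * (I₀ + 1 / ((s k : ℝ) + 1)) + (1 / 2) * FG Om Q DQ := by
    intro k
    have h1 : ∑ i, ∑ j, ∫ x in ball (0 : E n) 1,
        ⟪GA Om (P (s k)) (DP (s k)) i j x, GA Om Q DQ i j x⟫ ≤
        (1 / 2) * FG Om (P (s k)) (DP (s k)) + (1 / 2) * FG Om Q DQ := by
      simp only [FG, Finset.mul_sum]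
      rw [← Finset.sum_add_distrib]
      refine Finset.sum_le_sum fun i _ => ?_
      rw [← Finset.sum_add_distrib]
      refine Finset.sum_le_sum fun j _ => ?_
      rw [← integral_const_mul, ← integral_const_mul, ← integral_add
        ((int_sq (hGAk (s k) i j)).const_mul _) ((int_sq (hGA i j)).const_mul _)]
      refine integral_mono (int_inner (hGAk (s k) i j) (hGA i j))
        (((int_sq (hGAk (s k) i j)).const_mul _).add ((int_sq (hGA i j)).const_mul _)) ?_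
      intro x
      exact inner_le_half _ _
    have h2 := (hF (s k)).le
    linarith
  have hlim : Tendsto (fun k => (1 / 2) * (I₀ + 1 / ((s k : ℝ) + 1)) + (1 / 2) * FG Om Q DQ)
      atTop (𝓝 ((1 / 2) * (I₀ + 0) + (1 / 2) * FG Om Q DQ)) := by
    have h1 : Tendsto (fun k : ℕ => 1 / ((k : ℝ) + 1)) atTop (𝓝 0) :=
      tendsto_one_div_add_atTop_nhds_zero_nat
    have h2 := h1.comp hs.tendsto_atTop
    exact ((h2.const_add I₀).const_mul (1 / 2)).add_const _
  have hfin := le_of_tendsto_of_tendsto' hw2 hlim hle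
  linarith

/-- helper30's form of (MIN). -/
theorem pf_MIN30 : Pool.Agent.H30.RG.T_MIN := by
  intro n m Om hOm
  obtain ⟨P, DP, hP, hmin⟩ := min_all Pool.Agent.H30.RG.pf_RLX n m Om hOm
  refine ⟨P, DP, ⟨hP.wb, hP.orth⟩, fun Q DQ hQ => ?_⟩
  have hQ' : OW Q DQ := ⟨hQ.wb, hQ.orth⟩
  have h1 := hmin Q DQ hQ'
  have e : ∀ {P : Fin m → Fin m → E n → ℝ} {DP : Fin m → Fin m → E n → E n}, OW P DP →
      FG Om P DP = ∫ x in ball (0 : E n) 1, Pool.Agent.H30.RG.FF Om P DP x := fun hP =>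
    sum_int (memLp_GA hOm hP)
  rw [e hP, e hQ'] at h1
  exact h1

/-- (MIN), with no hypotheses. -/
theorem pf_MIN0 : T_MIN := pf_MIN Pool.Agent.H30.RG.pf_RLX

/-- Part B: the gauge exists. -/
theorem pf_GAU0 (hSMW : T_SMW) (hLEI : T_LEI) (hUNI : T_UNI) : T_GAU :=
  pf_GAU pf_MIN0 hSMW hLEI hUNI

end

end Pool.Agent.H39.RG
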