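import Pool.Agent.H39.RG.GAU
import Pool.Agent.H30.RG.Targets

/-!
# The gauge from helper30's form of the minimiser (REG, part B, helper39)
-/

set_option autoImplicit false

namespace Pool.Agent.H39.RG

open MeasureTheory Metric Set Filter Topology Pool.Agent.H87.SN Pool.Agent.H48.RG Finset
open scoped ContDiff RealInnerProductSpace ENNReal

noncomputable section

theorem min_bridge (h : Pool.Agent.H30.RG.T_MIN) : T_MIN := by
  intro n m _ Om hOm
  obtain ⟨P, DP, hP, hmin⟩ := h n m Om hOm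
  have hP' : OW P DP := ⟨hP.wb, hP.orth⟩
  refine ⟨P, DP, hP', fun Q DQ hQ => ?_⟩
  have h1 := hmin Q DQ ⟨hQ.wb, hQ.orth⟩
  have e : ∀ {P : Fin m → Fin m → E n → ℝ} {DP : Fin m → Fin m → E n → E n}, OW P DP →
      FG Om P DP = ∫ x in ball (0 : E n) 1, Pool.Agent.H30.RG.FF Om P DP x := fun hP =>
    sum_int (memLp_GA hOm hP)
  rw [e hP', e hQ]
  exact h1

/-- the gauge exists -/
theorem pf_GAU' (hMIN : Pool.Agent.H30.RG.T_MIN) (hSMW : T_SMW) (hLEI : T_LEI) (hUNI : T_UNI) :
    T_GAU := pf_GAU (min_bridge hMIN) hSMW hLEI hUNI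

end

end Pool.Agent.H39.RG
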