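import Pool.Agent.H48.RG.Targets

/-!
# Partial regularity of stationary harmonic maps (MP_2697e3_an), part B (gauge): the minimiser

`T_GAU` (Pool.Agent.H48.RG) follows from `T_MIN`, `T_SMW`, `T_LEI`, `T_UNI`.
-/

set_option autoImplicit false

namespace Pool.Agent.H39.RG

open MeasureTheory Metric Set Filter Topology Pool.Agent.H87.SN Pool.Agent.H48.RG
open scoped ContDiff RealInnerProductSpace ENNReal

noncomputable section

/-- Orthogonal matrices of bounded functions with square integrable weak gradient on the unit ball. -/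
structure OW {n m : ℕ} (P : Fin m → Fin m → E n → ℝ) (DP : Fin m → Fin m → E n → E n) : Prop where
  wb : ∀ i j, WB (ball 0 1) (P i j) (DP i j)
  orth : ∀ᵐ x ∂(volume.restrict (ball (0 : E n) 1)), ∀ i j,
    ∑ k, P k i x * P k j x = if i = j then 1 else 0

/-- The matrix `∇P + Ω P`. -/
def GA {n m : ℕ} (Om : Fin m → Fin m → E n → E n) (P : Fin m → Fin m → E n → ℝ)
    (DP : Fin m → Fin m → E n → E n) (i j : Fin m) (x : E n) : E n :=
  DP i j x + ∑ k, P k j x • Om i k x

/-- The energy `∫ |∇P + Ω P|²` on the unit ball. -/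
def FG {n m : ℕ} (Om : Fin m → Fin m → E n → E n) (P : Fin m → Fin m → E n → ℝ)
    (DP : Fin m → Fin m → E n → E n) : ℝ :=
  ∑ i, ∑ j, ∫ x in ball (0 : E n) 1, ‖GA Om P DP i j x‖ ^ 2

/-- (MIN) the energy has a minimiser in the class of orthogonal matrices. -/
def T_MIN : Prop :=
  ∀ (n m : ℕ), 1 ≤ n → ∀ Om : Fin m → Fin m → E n → E n,
    (∀ i j, MemLp (Om i j) 2 (volume.restrict (ball (0 : E n) 1))) →
    ∃ (P : Fin m → Fin m → E n → ℝ) (DP : Fin m → Fin m → E n → E n), OW P DP ∧
      ∀ (Q : Fin m → Fin m → E n → ℝ) (DQ : Fin m → Fin m → E n → E n), OW Q DQ →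
        FG Om P DP ≤ FG Om Q DQ

end

end Pool.Agent.H39.RG
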