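import Pool.Agent.H39.RG.Rot
import Pool.Agent.H39.RG.Targets

/-!
# The algebra of the variation of the gauge energy (REG, part B, helper39)
-/

set_option autoImplicit false

namespace Pool.Agent.H39.RG

open MeasureTheory Metric Set Filter Topology Pool.Agent.H87.SN Pool.Agent.H48.RG Finset
open scoped ContDiff RealInnerProductSpace ENNReal

noncomputable section

theorem Rot_orth' {m : ℕ} {a b : Fin m} (h : a ≠ b) (θ : ℝ) (i j : Fin m) :
    ∑ k, Rot a b θ k i * Rot a b θ k j = if i = j then 1 else 0 := by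
  have h1 := congrFun (congrFun (Rot_orth h θ) i) j
  simpa [Matrix.mul_apply, Matrix.one_apply] using h1

theorem Rot'_entry {m : ℕ} {a b : Fin m} (h : a ≠ b) (θ : ℝ) (k j : Fin m) :
    Rot' a b θ k j = ∑ l, Sab a b k l * Rot a b θ l j := by
  have h1 : Rot' a b θ = Sab a b * Rot a b θ := by rw [Rot'_eq h, Rot_comm]
  have h2 := congrFun (congrFun h1 k) j
  simpa [Matrix.mul_apply] using h2

/-- multiplication by `P` inverts the multiplication by `Pᵀ` -/
theorem inv_left {m : ℕ} {V : Type*} [NormedAddCommGroup V] [InnerProductSpace ℝ V]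
    (P : Fin m → Fin m → ℝ) (hP : ∀ i j, ∑ k, P k i * P k j = if i = j then 1 else 0)
    (X : Fin m → V) (i : Fin m) : ∑ k, P i k • ∑ l, P l k • X l = X i := by
  simp only [Finset.smul_sum, smul_smul]
  rw [Finset.sum_comm]
  have h1 : ∀ l, ∑ k, (P i k * P l k) • X l = (if i = l then (1 : ℝ) else 0) • X l := by
    intro l
    rw [← Finset.sum_smul, orth_symm P hP i l]
  simp_rw [h1]
  simp

theorem var_algebra {m : ℕ} {V : Type*} [NormedAddCommGroup V] [InnerProductSpace ℝ V]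
    (P : Fin m → Fin m → ℝ) (hP : ∀ i j, ∑ k, P k i * P k j = if i = j then 1 else 0)
    (G : Fin m → Fin m → V) (g : V) {a b : Fin m} (h : a ≠ b) (s t : ℝ) :
    ∑ i, ∑ j, ‖∑ l, Rot a b s l j • G i l + ∑ l, (P i l * (Rot' a b s l j * t)) • g‖ ^ 2 =
      ∑ i, ∑ j, ‖(∑ k, P k i • G k j) + (t * Sab a b i j) • g‖ ^ 2 := by
  set Y : Fin m → Fin m → V := fun k l => (∑ i, P i k • G i l) + (t * Sab a b k l) • g with hY
  have h1 : ∀ i j, ∑ l, Rot a b s l j • G i l + ∑ l, (P i l * (Rot' a b s l j * t)) • g =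
      ∑ k, P i k • ∑ l, Rot a b s l j • Y k l := by
    intro i j
    have e1 : ∀ k, ∑ l, Rot a b s l j • Y k l =
        (∑ l, Rot a b s l j • ∑ i, P i k • G i l) + (Rot' a b s k j * t) • g := by
      intro k
      simp only [hY, smul_add, Finset.sum_add_distrib]
      congr 1
      simp only [smul_smul]
      rw [← Finset.sum_smul, Rot'_entry h, Finset.sum_mul]
      congr 1
      refine Finset.sum_congr rfl fun l _ => ?_
      ring
    simp_rw [e1, smul_add, Finset.sum_add_distrib]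
    congr 1
    · have e2 : ∀ k, P i k • ∑ l, Rot a b s l j • ∑ i, P i k • G i l =
          ∑ l, Rot a b s l j • (P i k • ∑ i, P i k • G i l) := by
        intro k
        rw [Finset.smul_sum]
        refine Finset.sum_congr rfl fun l _ => ?_
        rw [smul_comm]
      simp_rw [e2]
      rw [Finset.sum_comm]
      refine Finset.sum_congr rfl fun l _ => ?_
      rw [← Finset.smul_sum, inv_left P hP (fun i => G i l) i]
    · refine Finset.sum_congr rfl fun k _ => ?_
      rw [smul_smul]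
  simp_rw [h1]
  rw [Finset.sum_comm]
  have h2 : ∀ j, ∑ i, ‖∑ k, P i k • ∑ l, Rot a b s l j • Y k l‖ ^ 2 =
      ∑ k, ‖∑ l, Rot a b s l j • Y k l‖ ^ 2 := fun j =>
    sum_sq_left P hP fun k => ∑ l, Rot a b s l j • Y k l
  simp_rw [h2]
  rw [Finset.sum_comm]
  refine Finset.sum_congr rfl fun k _ => ?_
  exact sum_sq_left (fun j l => Rot a b s l j)
    (fun i j => orth_symm (fun i j => Rot a b s i j) (Rot_orth' h s) i j) (Y k)

/-! ### The matrices of the gauge -/

variable {n m : ℕ} {Om : Fin m → Fin m → E n → E n} {P : Fin m → Fin m → E n → ℝ}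
  {DP : Fin m → Fin m → E n → E n}

theorem EE_eq (i j : Fin m) (x : E n) :
    EE P DP Om i j x = ∑ k, P k i x • GA Om P DP k j x := by
  simp only [EE, GA, smul_add, Finset.sum_add_distrib, Finset.smul_sum, smul_smul]

theorem sum_EE_GA (x : E n)
    (hP : ∀ i j, ∑ k, P k i x * P k j x = if i = j then 1 else 0) :
    ∑ i, ∑ j, ‖EE P DP Om i j x‖ ^ 2 = ∑ i, ∑ j, ‖GA Om P DP i j x‖ ^ 2 := by
  simp_rw [EE_eq]
  rw [Finset.sum_comm]
  conv_rhs => rw [Finset.sum_comm]
  refine Finset.sum_congr rfl fun j _ => ?_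
  exact sum_sq_left (fun i k => P k i x)
    (fun i j => orth_symm (fun i j => P i j x) hP i j) fun k => GA Om P DP k j x

/-- `|∇P|² ≤ 2 |∇P + ΩP|² + 2 |Ω|²` -/
theorem sum_DP_le (x : E n)
    (hP : ∀ i j, ∑ k, P k i x * P k j x = if i = j then 1 else 0) :
    ∑ i, ∑ j, ‖DP i j x‖ ^ 2 ≤
      2 * (∑ i, ∑ j, ‖GA Om P DP i j x‖ ^ 2) + 2 * ∑ i, ∑ j, ‖Om i j x‖ ^ 2 := by
  have h1 : ∀ i, ∑ j, ‖∑ k, P k j x • Om i k x‖ ^ 2 = ∑ k, ‖Om i k x‖ ^ 2 := fun i =>
    sum_sq_left (fun j k => P k j x)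
      (fun i j => orth_symm (fun i j => P i j x) hP i j) fun k => Om i k x
  calc ∑ i, ∑ j, ‖DP i j x‖ ^ 2 ≤ ∑ i, ∑ j, (2 * ‖GA Om P DP i j x‖ ^ 2 +
      2 * ‖∑ k, P k j x • Om i k x‖ ^ 2) := by
        refine Finset.sum_le_sum fun i _ => Finset.sum_le_sum fun j _ => ?_
        have e : DP i j x = GA Om P DP i j x - ∑ k, P k j x • Om i k x := by
          simp [GA]
        rw [e]
        have h2 := norm_sub_le (GA Om P DP i j x) (∑ k, P k j x • Om i k x)
        have h3 := norm_nonneg (GA Om P DP i j x - ∑ k, P k j x • Om i k x)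
        nlinarith [sq_nonneg (‖GA Om P DP i j x‖ - ‖∑ k, P k j x • Om i k x‖)]
    _ = _ := by
        simp only [Finset.sum_add_distrib, ← Finset.mul_sum]
        simp_rw [h1]

end

end Pool.Agent.H39.RG
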