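import Pool.Agent.H39.RG.Var

/-!
# The gauge exists (REG, part B, helper39)

`T_GAU` follows from the existence of the minimiser and the calculus of bounded functions with
square integrable weak gradient.
-/

set_option autoImplicit false

namespace Pool.Agent.H39.RG

open MeasureTheory Metric Set Filter Topology Pool.Agent.H87.SN Pool.Agent.H48.RG Finset
open scoped ContDiff RealInnerProductSpace ENNReal

noncomputable section

variable {n m : ℕ} {Om : Fin m → Fin m → E n → E n} {P : Fin m → Fin m → E n → ℝ}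
  {DP : Fin m → Fin m → E n → E n}

theorem memLp_grad {φ : E n → ℝ} (hφ : Tst univ φ) : MemLp (gradient φ) 2 (μB n) := by
  have h1 : Continuous (gradient φ) := by
    unfold gradient
    exact (InnerProductSpace.toDual ℝ (E n)).symm.continuous.comp
      (hφ.1.continuous_fderiv (by norm_num))
  have h2 : HasCompactSupport (gradient φ) := by
    unfold gradient
    exact (hφ.2.1.fderiv (𝕜 := ℝ)).comp_left
      (g := fun L => (InnerProductSpace.toDual ℝ (E n)).symm L) (by simp)
  exact (h1.memLp_of_hasCompactSupport h2).mono_measure Measure.restrict_le_self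

theorem int_inner {X Y : E n → E n} (hX : MemLp X 2 (μB n)) (hY : MemLp Y 2 (μB n)) :
    Integrable (fun x => ⟪X x, Y x⟫) (μB n) := by
  have h1 := ((int_sq (hX.add hY)).sub (int_sq hX)).sub (int_sq hY)
  have h2 := h1.const_mul (1 / 2)
  refine h2.congr (Eventually.of_forall fun x => ?_)
  simp only [Pi.sub_apply, Pi.add_apply]
  rw [norm_add_sq_real]
  ring

theorem integral_sq_add {X Y : E n → E n} (hX : MemLp X 2 (μB n)) (hY : MemLp Y 2 (μB n))
    (c : ℝ) : ∫ x in ball (0 : E n) 1, ‖X x + c • Y x‖ ^ 2 =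
      (∫ x in ball (0 : E n) 1, ‖X x‖ ^ 2) + 2 * c * (∫ x in ball (0 : E n) 1, ⟪X x, Y x⟫) +
        c ^ 2 * ∫ x in ball (0 : E n) 1, ‖Y x‖ ^ 2 := by
  have e : (fun x => ‖X x + c • Y x‖ ^ 2) =
      fun x => (‖X x‖ ^ 2 + 2 * c * ⟪X x, Y x⟫) + c ^ 2 * ‖Y x‖ ^ 2 := by
    funext x
    rw [norm_add_sq_real, real_inner_smul_right, norm_smul, mul_pow, Real.norm_eq_abs, sq_abs]
    ring
  have i1 : Integrable (fun x => ‖X x‖ ^ 2) (μB n) := int_sq hX
  have i2 : Integrable (fun x => 2 * c * ⟪X x, Y x⟫) (μB n) := (int_inner hX hY).const_mul _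
  have i3 : Integrable (fun x => c ^ 2 * ‖Y x‖ ^ 2) (μB n) := (int_sq hY).const_mul _
  have i12 : Integrable (fun x => ‖X x‖ ^ 2 + 2 * c * ⟪X x, Y x⟫) (μB n) := i1.add i2
  rw [e, integral_add i12 i3, integral_add i1 i2, integral_const_mul, integral_const_mul]

/-- the energy of the competitor -/
theorem FG_QV (hSMW : T_SMW) (hOm : ∀ i j, MemLp (Om i j) 2 (μB n)) (h : OW P DP)
    {a b : Fin m} (hab : a ≠ b) (t : ℝ) {φ : E n → ℝ} (hφ : Tst univ φ) :
    FG Om (QV P a b t φ) (DQV P DP a b t φ) = FG Om P DP +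
      2 * t * (∑ i, ∑ j, Sab a b i j *
        ∫ x in ball (0 : E n) 1, ⟪EE P DP Om i j x, gradient φ x⟫) +
      t ^ 2 * ∑ i, ∑ j, (Sab a b i j) ^ 2 * ∫ x in ball (0 : E n) 1, ‖gradient φ x‖ ^ 2 := by
  have hQ := ow_QV hSMW h hab t hφ.1
  have hd : Differentiable ℝ φ := hφ.1.differentiable (by norm_num)
  have h1 : FG Om (QV P a b t φ) (DQV P DP a b t φ) =
      ∫ x in ball (0 : E n) 1, ∑ i, ∑ j,
        ‖EE P DP Om i j x + (t * Sab a b i j) • gradient φ x‖ ^ 2 := by
    rw [FG, sum_int (memLp_GA hOm hQ)]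
    refine integral_congr_ae ?_
    filter_upwards [h.orth] with x hx
    have h2 := var_algebra (fun i j => P i j x) hx (fun i j => GA Om P DP i j x)
      (gradient φ x) hab (t * φ x) t
    simp_rw [GA_QV hd, EE_eq]
    exact h2
  have h3 : ∀ i j, MemLp (fun x => EE P DP Om i j x + (t * Sab a b i j) • gradient φ x) 2
      (μB n) := by
    intro i j
    have h4 : MemLp (fun x => (t * Sab a b i j) • gradient φ x) 2 (μB n) :=
      (memLp_grad hφ).const_smul (t * Sab a b i j)
    exact (memLp_EE hOm h i j).add h4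
  rw [h1, ← sum_int h3, ← sum_EE_eq_FG hOm h, Finset.mul_sum, Finset.mul_sum,
    ← Finset.sum_add_distrib, ← Finset.sum_add_distrib]
  refine Finset.sum_congr rfl fun i _ => ?_
  rw [Finset.mul_sum, Finset.mul_sum, ← Finset.sum_add_distrib, ← Finset.sum_add_distrib]
  refine Finset.sum_congr rfl fun j _ => ?_
  rw [integral_sq_add (memLp_EE hOm h i j) (memLp_grad hφ)]
  ring

theorem quad_zero {L C : ℝ} (hC : 0 ≤ C) (h : ∀ t : ℝ, 0 ≤ 2 * t * L + t ^ 2 * C) : L = 0 := by
  have h1 := h (-L / (C + 1))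
  have hC1 : 0 < C + 1 := by linarith
  have h2 : 2 * (-L / (C + 1)) * L + (-L / (C + 1)) ^ 2 * C =
      -(L ^ 2 * (C + 2)) / (C + 1) ^ 2 := by
    field_simp
    ring
  rw [h2] at h1
  have h3 : 0 ≤ -(L ^ 2 * (C + 2)) := by
    by_contra hneg
    push Not at hneg
    have := div_neg_of_neg_of_pos hneg (pow_pos hC1 2)
    linarith
  have h4 : L ^ 2 ≤ 0 := by nlinarith [sq_nonneg L]
  exact pow_eq_zero_iff (two_ne_zero) |>.mp (le_antisymm h4 (sq_nonneg L))

/-- the matrix `Pᵀ∇P + PᵀΩP` is antisymmetric -/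
theorem EE_anti (hLEI : T_LEI) (hUNI : T_UNI) (h : OW P DP)
    (hanti : ∀ i j x, Om i j x = - Om j i x) :
    ∀ᵐ x ∂(μB n), ∀ i j, EE P DP Om j i x = - EE P DP Om i j x := by
  have h1 : ∀ i j, ∀ᵐ x ∂(μB n), ∑ k, (P k i x • DP k j x + P k j x • DP k i x) = 0 := by
    intro i j
    have h2 : WB (ball (0 : E n) 1) (fun x => ∑ k, P k i x * P k j x)
        (fun x => ∑ k, (P k i x • DP k j x + P k j x • DP k i x)) :=
      wb_sum _ fun k _ => hLEI n _ _ _ _ (h.wb k i) (h.wb k j)
    have h3 := hUNI n _ _ _ _ h2 (wb_const (n := n) (if i = j then 1 else 0))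
      (h.orth.mono fun x hx => hx i j)
    exact h3
  have h4 : ∀ᵐ x ∂(μB n), ∀ i j, ∑ k, (P k i x • DP k j x + P k j x • DP k i x) = 0 := by
    rw [ae_all_iff]
    intro i
    rw [ae_all_iff]
    exact fun j => h1 i j
  filter_upwards [h4] with x hx i j
  rw [eq_neg_iff_add_eq_zero]
  have h5 := hx i j
  rw [Finset.sum_add_distrib] at h5
  have h6 : ∑ k, ∑ l, (P k j x * P l i x) • Om k l x =
      -∑ k, ∑ l, (P k i x * P l j x) • Om k l x := by
    rw [Finset.sum_comm, ← Finset.sum_neg_distrib]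
    refine Finset.sum_congr rfl fun k _ => ?_
    rw [← Finset.sum_neg_distrib]
    refine Finset.sum_congr rfl fun l _ => ?_
    rw [hanti l k x, smul_neg, mul_comm]
  simp only [EE]
  rw [h6]
  rw [show ∀ A B C : E n, A + -C + (B + C) = B + A from fun A B C => by abel]
  exact h5

theorem sab_sum {a b : Fin m} (F : Fin m → Fin m → ℝ) :
    ∑ i, ∑ j, Sab a b i j * F i j = F a b - F b a := by
  simp [Sab, Matrix.single, sub_mul, Finset.sum_sub_distrib, ite_and]

/-- Part B: the gauge exists. -/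
theorem pf_GAU (hMIN : T_MIN) (hSMW : T_SMW) (hLEI : T_LEI) (hUNI : T_UNI) : T_GAU := by
  intro n m hn Om hOm hanti
  obtain ⟨P, DP, hP, hmin⟩ := hMIN n m hn Om hOm
  have hA := EE_anti hLEI hUNI hP hanti
  have hF0 : FG Om P DP ≤ ∑ i, ∑ j, ∫ x in ball (0 : E n) 1, ‖Om i j x‖ ^ 2 := by
    have := hmin _ _ (ow_id (n := n) (m := m))
    rwa [FG_id] at this
  refine ⟨P, DP, ⟨hP.wb, hP.orth, ?_, ?_, ?_⟩⟩
  · intro a b φ hφ
    have e : (fun x => fderiv ℝ φ x (EE P DP Om a b x)) =
        fun x => ⟪EE P DP Om a b x, gradient φ x⟫ := by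
      funext x; rw [grad_inner, real_inner_comm]
    rw [e]
    by_cases hab : a = b
    · subst hab
      have : ∀ᵐ x ∂(μB n), ⟪EE P DP Om a a x, gradient φ x⟫ = 0 := by
        filter_upwards [hA] with x hx
        have h1 := hx a a
        have h2 : EE P DP Om a a x = 0 := by
          have h3 : (2 : ℝ) • EE P DP Om a a x = 0 := by
            rw [two_smul]
            nth_rewrite 1 [h1]
            abel
          exact (smul_eq_zero.mp h3).resolve_left two_ne_zero
        rw [h2, inner_zero_left]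
      rw [integral_congr_ae this, integral_zero]
    · have h1 : ∑ i, ∑ j, Sab a b i j *
          ∫ x in ball (0 : E n) 1, ⟪EE P DP Om i j x, gradient φ x⟫ = 0 := by
        refine quad_zero (C := ∑ i, ∑ j, (Sab a b i j) ^ 2 *
          ∫ x in ball (0 : E n) 1, ‖gradient φ x‖ ^ 2) ?_ ?_
        · exact Finset.sum_nonneg fun i _ => Finset.sum_nonneg fun j _ =>
            mul_nonneg (sq_nonneg _) (integral_nonneg fun x => by positivity)
        · intro t
          have h2 := hmin _ _ (ow_QV hSMW hP hab t hφ.1)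
          rw [FG_QV hSMW hOm hP hab t hφ] at h2
          linarith
      rw [sab_sum] at h1
      have h3 : ∫ x in ball (0 : E n) 1, ⟪EE P DP Om b a x, gradient φ x⟫ =
          -∫ x in ball (0 : E n) 1, ⟪EE P DP Om a b x, gradient φ x⟫ := by
        rw [← integral_neg]
        refine integral_congr_ae ?_
        filter_upwards [hA] with x hx
        rw [hx a b, inner_neg_left]
      rw [h3] at h1
      linarith
  · rw [sum_EE_eq_FG hOm hP]
    exact hF0
  · have h1 : ∑ i, ∑ j, ∫ x in ball (0 : E n) 1, ‖DP i j x‖ ^ 2 ≤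
        2 * FG Om P DP + 2 * ∑ i, ∑ j, ∫ x in ball (0 : E n) 1, ‖Om i j x‖ ^ 2 := by
      have hDP : ∀ i j, MemLp (DP i j) 2 (μB n) := fun i j => (hP.wb i j).d2
      have hGA := memLp_GA hOm hP
      rw [FG, sum_int hDP, sum_int hGA, sum_int hOm, ← integral_const_mul, ← integral_const_mul,
        ← integral_add]
      · refine integral_mono_ae ?_ ?_ ?_
        · exact integrable_finsetSum _ fun i _ => integrable_finsetSum _ fun j _ => int_sq (hDP i j)
        · exact ((integrable_finsetSum _ fun i _ => integrable_finsetSum _ fun j _ =>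
            int_sq (hGA i j)).const_mul 2).add ((integrable_finsetSum _ fun i _ =>
            integrable_finsetSum _ fun j _ => int_sq (hOm i j)).const_mul 2)
        · filter_upwards [hP.orth] with x hx
          exact sum_DP_le x hx
      · exact (integrable_finsetSum _ fun i _ => integrable_finsetSum _ fun j _ =>
          int_sq (hGA i j)).const_mul 2
      · exact (integrable_finsetSum _ fun i _ => integrable_finsetSum _ fun j _ =>
          int_sq (hOm i j)).const_mul 2
    linarith

end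

end Pool.Agent.H39.RG
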