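import Pool.Agent.H39.RG.WBL
import Pool.Agent.H39.RG.Alg

/-!
# Integrability and the competitors of the gauge energy (REG, part B, helper39)
-/

set_option autoImplicit false

namespace Pool.Agent.H39.RG

open MeasureTheory Metric Set Filter Topology Pool.Agent.H87.SN Pool.Agent.H48.RG Finset
open scoped ContDiff RealInnerProductSpace ENNReal

noncomputable section

variable {n m : ℕ} {Om : Fin m → Fin m → E n → E n} {P : Fin m → Fin m → E n → ℝ}
  {DP : Fin m → Fin m → E n → E n}

theorem orth_ae_le (h : OW P DP) : ∀ᵐ x ∂(μB n), ∀ i j, |P i j x| ≤ 1 := by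
  filter_upwards [h.orth] with x hx i j
  exact orth_le (fun i j => P i j x) hx i j

theorem memLp_smulB {f : E n → ℝ} {X : E n → E n} (hf : AEStronglyMeasurable f (μB n))
    (hb : ∀ᵐ x ∂(μB n), |f x| ≤ 1) (hX : MemLp X 2 (μB n)) :
    MemLp (fun x => f x • X x) 2 (μB n) := by
  refine hX.mono (hf.smul hX.1) ?_
  filter_upwards [hb] with x hx
  rw [norm_smul, Real.norm_eq_abs]
  exact mul_le_of_le_one_left (norm_nonneg _) hx

theorem memLp_GA (hOm : ∀ i j, MemLp (Om i j) 2 (μB n)) (h : OW P DP) (i j : Fin m) :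
    MemLp (GA Om P DP i j) 2 (μB n) := by
  have h1 : MemLp (fun x => ∑ k, P k j x • Om i k x) 2 (μB n) := by
    refine memLp_finsetSum _ fun k _ => ?_
    exact memLp_smulB (h.wb k j).ms ((orth_ae_le h).mono fun x hx => hx k j) (hOm i k)
  exact (h.wb i j).d2.add h1

theorem memLp_EE (hOm : ∀ i j, MemLp (Om i j) 2 (μB n)) (h : OW P DP) (i j : Fin m) :
    MemLp (EE P DP Om i j) 2 (μB n) := by
  have e : EE P DP Om i j = fun x => ∑ k, P k i x • GA Om P DP k j x := by
    funext x; exact EE_eq i j x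
  rw [e]
  refine memLp_finsetSum _ fun k _ => ?_
  exact memLp_smulB (h.wb k i).ms ((orth_ae_le h).mono fun x hx => hx k i) (memLp_GA hOm h k j)

theorem int_sq {X : E n → E n} (h : MemLp X 2 (μB n)) :
    Integrable (fun x => ‖X x‖ ^ 2) (μB n) := h.norm.integrable_sq

/-- sums and integrals of squares -/
theorem sum_int {X : Fin m → Fin m → E n → E n} (h : ∀ i j, MemLp (X i j) 2 (μB n)) :
    ∑ i, ∑ j, ∫ x in ball (0 : E n) 1, ‖X i j x‖ ^ 2 =
      ∫ x in ball (0 : E n) 1, ∑ i, ∑ j, ‖X i j x‖ ^ 2 := by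
  rw [integral_finsetSum _ fun i _ => integrable_finsetSum _ fun j _ => int_sq (h i j)]
  refine Finset.sum_congr rfl fun i _ => ?_
  rw [integral_finsetSum _ fun j _ => int_sq (h i j)]

theorem sum_EE_eq_FG (hOm : ∀ i j, MemLp (Om i j) 2 (μB n)) (h : OW P DP) :
    ∑ i, ∑ j, ∫ x in ball (0 : E n) 1, ‖EE P DP Om i j x‖ ^ 2 = FG Om P DP := by
  rw [FG, sum_int (memLp_EE hOm h), sum_int (memLp_GA hOm h)]
  refine integral_congr_ae ?_
  filter_upwards [h.orth] with x hx
  exact sum_EE_GA x hx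

/-- the identity matrix -/
def Pid (n m : ℕ) (i j : Fin m) (_ : E n) : ℝ := if i = j then 1 else 0

theorem ow_id : OW (Pid n m) (fun _ _ _ => 0) where
  wb i j := wb_const _
  orth := by
    refine Eventually.of_forall fun x i j => ?_
    simp [Pid, eq_comm]

theorem FG_id : FG Om (Pid n m) (fun _ _ _ => 0) =
    ∑ i, ∑ j, ∫ x in ball (0 : E n) 1, ‖Om i j x‖ ^ 2 := by
  simp [FG, GA, Pid]

/-- a smooth function of a test function is smooth; its gradient -/
theorem grad_comp {φ : E n → ℝ} (hφ : Differentiable ℝ φ) {g : ℝ → ℝ} {g' : ℝ → ℝ}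
    (hg : ∀ s, HasDerivAt g (g' s) s) (t : ℝ) (x : E n) :
    gradient (fun y => g (t * φ y)) x = (g' (t * φ x) * t) • gradient φ x := by
  have h1 : HasFDerivAt (fun y => t * φ y) (t • fderiv ℝ φ x) x :=
    (hφ x).hasFDerivAt.const_mul t
  have h2 := (hg (t * φ x)).comp_hasFDerivAt x h1
  have h3 : fderiv ℝ (fun y => g (t * φ y)) x = (g' (t * φ x) * t) • fderiv ℝ φ x := by
    have := h2.fderiv
    rw [show (fun y => g (t * φ y)) = g ∘ fun y => t * φ y from rfl, this, smul_smul]
  simp only [gradient, h3, map_smulₛₗ]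
  simp

theorem grad_inner {φ : E n → ℝ} (x v : E n) : fderiv ℝ φ x v = ⟪gradient φ x, v⟫ := by
  simp [gradient]

/-- the competitor -/
def QV (P : Fin m → Fin m → E n → ℝ) (a b : Fin m) (t : ℝ) (φ : E n → ℝ) (i j : Fin m)
    (x : E n) : ℝ := ∑ l, Rot a b (t * φ x) l j * P i l x

/-- its gradient -/
def DQV (P : Fin m → Fin m → E n → ℝ) (DP : Fin m → Fin m → E n → E n) (a b : Fin m) (t : ℝ)
    (φ : E n → ℝ) (i j : Fin m) (x : E n) : E n :=
  ∑ l, dm (fun y => Rot a b (t * φ y) l j) (P i l) (DP i l) x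

theorem ow_QV (hSMW : T_SMW) (h : OW P DP) {a b : Fin m} (hab : a ≠ b) (t : ℝ) {φ : E n → ℝ}
    (hφ : ContDiff ℝ ∞ φ) : OW (QV P a b t φ) (DQV P DP a b t φ) where
  wb i j := by
    refine wb_sum _ fun l _ => ?_
    refine hSMW n 0 1 (fun y => Rot a b (t * φ y) l j) (P i l) (DP i l) ?_ (h.wb i l)
    exact (contDiff_Rot a b l j).comp (contDiff_const.mul hφ)
  orth := by
    filter_upwards [h.orth] with x hx i j
    simp only [QV, Finset.sum_mul_sum]
    rw [Finset.sum_comm]
    have h1 : ∀ l, ∑ k, ∑ l', Rot a b (t * φ x) l i * P k l x *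
        (Rot a b (t * φ x) l' j * P k l' x) = Rot a b (t * φ x) l i * Rot a b (t * φ x) l j := by
      intro l
      rw [Finset.sum_comm]
      have h2 : ∀ l', ∑ k, Rot a b (t * φ x) l i * P k l x *
          (Rot a b (t * φ x) l' j * P k l' x) =
          Rot a b (t * φ x) l i * Rot a b (t * φ x) l' j * (if l = l' then 1 else 0) := by
        intro l'
        rw [← hx l l', Finset.mul_sum]
        refine Finset.sum_congr rfl fun k _ => ?_
        ring
      simp_rw [h2]
      simp
    simp_rw [h1]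
    exact Rot_orth' hab _ i j

theorem GA_QV {φ : E n → ℝ} (hφ : Differentiable ℝ φ) (a b : Fin m) (t : ℝ) (i j : Fin m) (x : E n) :
    GA Om (QV P a b t φ) (DQV P DP a b t φ) i j x =
      ∑ l, Rot a b (t * φ x) l j • GA Om P DP i l x +
        ∑ l, (P i l x * (Rot' a b (t * φ x) l j * t)) • gradient φ x := by
  have h1 : ∀ l, dm (fun y => Rot a b (t * φ y) l j) (P i l) (DP i l) x =
      Rot a b (t * φ x) l j • DP i l x +
        (P i l x * (Rot' a b (t * φ x) l j * t)) • gradient φ x := by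
    intro l
    rw [dm, grad_comp hφ (g := fun s => Rot a b s l j) (g' := fun s => Rot' a b s l j)
      (fun s => hasDerivAt_Rot a b l j s) t x, smul_smul]
  simp only [GA, DQV, QV, h1, Finset.sum_add_distrib, smul_add, Finset.smul_sum, Finset.sum_smul,
    smul_smul]
  rw [add_right_comm]
  congr 1
  congr 1
  rw [Finset.sum_comm]

end

end Pool.Agent.H39.RG
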