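import Pool.Agent.H39.RG.Targets
import Pool.Agent.H39.RG.Rot

/-!
# Sums and constants in the class `WB` on the unit ball (REG, part B, helper39)
-/

set_option autoImplicit false

namespace Pool.Agent.H39.RG

open MeasureTheory Metric Set Filter Topology Pool.Agent.H87.SN Pool.Agent.H48.RG
open scoped ContDiff RealInnerProductSpace ENNReal

noncomputable section

/-- the measure on the unit ball -/
abbrev μB (n : ℕ) : Measure (E n) := volume.restrict (ball (0 : E n) 1)

instance instFiniteμB (n : ℕ) : IsFiniteMeasure (μB n) :=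
  ⟨by
    rw [Measure.restrict_apply_univ]
    exact measure_ball_lt_top⟩

theorem tst_cont {n : ℕ} {U : Set (E n)} {φ : E n → ℝ} (h : Tst U φ) : Continuous φ :=
  h.1.continuous

theorem tst_fderiv_cont {n : ℕ} {U : Set (E n)} {φ : E n → ℝ} (h : Tst U φ) (v : E n) :
    Continuous fun x => fderiv ℝ φ x v :=
  (h.1.continuous_fderiv (by norm_num)).clm_apply continuous_const

theorem tst_fderiv_supp {n : ℕ} {U : Set (E n)} {φ : E n → ℝ} (h : Tst U φ) (v : E n) (x : E n)
    (hx : x ∉ U) : fderiv ℝ φ x v = 0 := by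
  have : x ∉ tsupport φ := fun h' => hx (h.2.2 h')
  have h2 : x ∉ Function.support (fderiv ℝ φ) := fun h' => this (support_fderiv_subset ℝ h')
  rw [Function.mem_support, not_not] at h2
  rw [h2]; rfl

theorem tst_supp {n : ℕ} {U : Set (E n)} {φ : E n → ℝ} (h : Tst U φ) (x : E n)
    (hx : x ∉ U) : φ x = 0 := by
  have : x ∉ tsupport φ := fun h' => hx (h.2.2 h')
  exact image_eq_zero_of_notMem_tsupport this

theorem tst_fderiv_compact {n : ℕ} {U : Set (E n)} {φ : E n → ℝ} (h : Tst U φ) (v : E n) :
    HasCompactSupport fun x => fderiv ℝ φ x v := by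
  have := h.2.1.fderiv (𝕜 := ℝ)
  exact this.comp_left (g := fun L : E n →L[ℝ] ℝ => L v) (by simp)

theorem int_fderiv_mul {n : ℕ} {f : E n → ℝ} {D : E n → E n} (hf : WB (ball (0 : E n) 1) f D)
    {φ : E n → ℝ} (h : Tst (ball (0 : E n) 1) φ) (v : E n) :
    Integrable fun x => fderiv ℝ φ x v * f x := by
  obtain ⟨B, hB⟩ := hf.bd
  have h1 : IntegrableOn (fun x => fderiv ℝ φ x v * f x) (ball (0 : E n) 1) := by
    have h2 : Integrable (fun x => fderiv ℝ φ x v) (μB n) :=
      ((tst_fderiv_cont h v).integrable_of_hasCompactSupport (tst_fderiv_compact h v)).mono_measure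
        Measure.restrict_le_self
    exact h2.mul_bdd (c := B) hf.ms (by simpa [Real.norm_eq_abs] using hB)
  rw [integrableOn_iff_integrable_of_support_subset] at h1
  · exact h1
  · intro x hx
    by_contra hxU
    apply hx
    simp [tst_fderiv_supp h v x hxU]

theorem int_mul_inner {n : ℕ} {f : E n → ℝ} {D : E n → E n} (hf : WB (ball (0 : E n) 1) f D)
    {φ : E n → ℝ} (h : Tst (ball (0 : E n) 1) φ) (v : E n) :
    Integrable fun x => φ x * ⟪D x, v⟫ := by
  have h1 : IntegrableOn (fun x => φ x * ⟪D x, v⟫) (ball (0 : E n) 1) := by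
    have h2 : Integrable D (μB n) := hf.d2.integrable (by norm_num)
    have h3 : Integrable (fun x => ⟪D x, v⟫) (μB n) := h2.inner_const v
    obtain ⟨C, hC⟩ := (tst_cont h).bounded_above_of_compact_support h.2.1
    exact h3.bdd_mul (c := C) (tst_cont h).aestronglyMeasurable (Eventually.of_forall hC)
  rw [integrableOn_iff_integrable_of_support_subset] at h1
  · exact h1
  · intro x hx
    by_contra hxU
    apply hx
    simp [tst_supp h x hxU]

theorem integral_fderiv_zero {n : ℕ} {U : Set (E n)} {φ : E n → ℝ} (h : Tst U φ) (v : E n) :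
    ∫ x, fderiv ℝ φ x v = 0 := by
  have h1 := integral_mul_fderiv_eq_neg_fderiv_mul_of_integrable (μ := (volume : Measure (E n)))
    (f := fun _ : E n => (1 : ℝ)) (g := φ) (v := v) (by simp)
    (by simpa using (tst_fderiv_cont h v).integrable_of_hasCompactSupport (tst_fderiv_compact h v))
    (by simpa using (tst_cont h).integrable_of_hasCompactSupport h.2.1)
    (fun x _ => differentiableAt_const _) (fun x _ => (h.1.differentiable (by norm_num)).differentiableAt)
  simpa using h1

theorem wb_const {n : ℕ} (c : ℝ) : WB (ball (0 : E n) 1) (fun _ => c) (fun _ => (0 : E n)) where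
  ms := aestronglyMeasurable_const
  bd := ⟨|c|, Eventually.of_forall fun _ => le_rfl⟩
  d2 := MemLp.zero
  wg := by
    intro φ h v
    simp only [inner_zero_left, mul_zero, integral_zero, neg_zero]
    rw [integral_mul_const, integral_fderiv_zero h v, zero_mul]

theorem wb_add {n : ℕ} {f g : E n → ℝ} {D G : E n → E n} (hf : WB (ball (0 : E n) 1) f D)
    (hg : WB (ball (0 : E n) 1) g G) :
    WB (ball (0 : E n) 1) (fun x => f x + g x) (fun x => D x + G x) where
  ms := hf.ms.add hg.ms
  bd := by
    obtain ⟨B, hB⟩ := hf.bd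
    obtain ⟨C, hC⟩ := hg.bd
    refine ⟨B + C, ?_⟩
    filter_upwards [hB, hC] with x h1 h2
    exact (abs_add_le _ _).trans (add_le_add h1 h2)
  d2 := hf.d2.add hg.d2
  wg := by
    intro φ h v
    have e1 : (fun x => fderiv ℝ φ x v * (f x + g x)) =
        fun x => fderiv ℝ φ x v * f x + fderiv ℝ φ x v * g x := by funext x; ring
    have e2 : (fun x => φ x * ⟪D x + G x, v⟫) =
        fun x => φ x * ⟪D x, v⟫ + φ x * ⟪G x, v⟫ := by
      funext x; rw [inner_add_left]; ring
    rw [e1, e2, integral_add (int_fderiv_mul hf h v) (int_fderiv_mul hg h v),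
      integral_add (int_mul_inner hf h v) (int_mul_inner hg h v), hf.wg φ h v, hg.wg φ h v]
    ring

theorem wb_sum {n : ℕ} {ι : Type*} (s : Finset ι) {f : ι → E n → ℝ} {D : ι → E n → E n}
    (hf : ∀ i ∈ s, WB (ball (0 : E n) 1) (f i) (D i)) :
    WB (ball (0 : E n) 1) (fun x => ∑ i ∈ s, f i x) (fun x => ∑ i ∈ s, D i x) := by
  classical
  induction s using Finset.induction_on with
  | empty => simpa using wb_const (n := n) 0
  | insert a s ha ih =>
    have h1 := hf a (Finset.mem_insert_self a s)
    have h2 := ih fun i hi => hf i (Finset.mem_insert_of_mem hi)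
    have h3 := wb_add h1 h2
    have e1 : (fun x => ∑ i ∈ insert a s, f i x) = fun x => f a x + ∑ i ∈ s, f i x := by
      funext x; rw [Finset.sum_insert ha]
    have e2 : (fun x => ∑ i ∈ insert a s, D i x) = fun x => D a x + ∑ i ∈ s, D i x := by
      funext x; rw [Finset.sum_insert ha]
    rw [e1, e2]
    exact h3

end

end Pool.Agent.H39.RG
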